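import Pool.Agent.N102.FL.Stm

/-! Project FL: number of relations (helper40) -/

set_option autoImplicit false

universe u

namespace Pool.Agent.N40.FL

open Pool.Agent.N102.FL Finset

/-- the number of independent relations -/
theorem t_dim : S_DIM.{u} := by
  intro p k K _ _ _ T _ e z
  have h := LinearMap.finrank_range_add_finrank_ker (Fintype.linearCombination k (pw p e z))
  rw [Fintype.range_linearCombination, Module.finrank_fintype_fun_eq_card, Fintype.card_option] at h
  unfold Pool.Agent.N102.FL.Rel
  omega

end Pool.Agent.N40.FL
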