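import Pool.Agent.N102.FL.Stm

/-! Project FL: independence of an echelon family (helper40) -/

set_option autoImplicit false

universe u

namespace Pool.Agent.N40.FL

open Pool.Agent.N102.FL Finset

/-- independence of a family in echelon form -/
theorem t_ech : S_ECH.{u} := by
  intro κ _ ι P _ Λ _ key σ v hkey hσ h
  classical
  rw [Fintype.linearIndependent_iff]
  intro a ha
  by_contra! hne
  obtain ⟨q0, hq0⟩ := hne
  obtain ⟨q, hq, hmin⟩ := Finset.exists_min_image (univ.filter fun q => a q ≠ 0) key
    ⟨q0, mem_filter.2 ⟨mem_univ _, hq0⟩⟩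
  have hq' := (mem_filter.1 hq).2
  have h1 := congrFun ha (σ q)
  rw [Finset.sum_apply, Finset.sum_eq_single q] at h1
  · rw [Pi.smul_apply, smul_eq_mul, Pi.zero_apply] at h1
    exact (mul_ne_zero hq' (hσ q)) h1
  · intro q' _ hne
    rw [Pi.smul_apply, smul_eq_mul]
    by_cases h0 : a q' = 0
    · rw [h0, zero_mul]
    · have h2 : key q < key q' :=
        lt_of_le_of_ne (hmin q' (mem_filter.2 ⟨mem_univ _, h0⟩)) (fun h => hne (hkey h.symm))
      rw [h q' q h2, mul_zero]
  · intro h2
    exact absurd (mem_univ _) h2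

end Pool.Agent.N40.FL
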