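import Pool.Agent.N102.FL.Stm

/-! Project FL: finite spanning families of relations (helper40) -/

set_option autoImplicit false

universe u

namespace Pool.Agent.N40.FL

open Pool.Agent.N102.FL Finset

/-- the relations of level at least `f` with support in `W` -/
def RW {k : Type u} [Field k] {T : Type} (e : T → ℕ) (R : Submodule k (Option T → k)) (f : ℕ)
    (W : Finset (Option T)) : Submodule k (Option T → k) where
  carrier := {c | c ∈ R ∧ LevelGe e f c ∧ ∀ o, c o ≠ 0 → o ∈ W}
  add_mem' := by
    rintro a b ⟨ha1, ha2, ha3⟩ ⟨hb1, hb2, hb3⟩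
    refine ⟨R.add_mem ha1 hb1, fun t ht => ?_, fun o ho => ?_⟩
    · by_cases h : a (some t) = 0
      · refine hb2 t fun h' => ht ?_
        rw [Pi.add_apply, h, h', add_zero]
      · exact ha2 t h
    · by_cases h : a o = 0
      · refine hb3 o fun h' => ho ?_
        rw [Pi.add_apply, h, h', add_zero]
      · exact ha3 o h
  zero_mem' := ⟨R.zero_mem, fun t ht => absurd rfl ht, fun o ho => absurd rfl ho⟩
  smul_mem' := by
    rintro x a ⟨ha1, ha2, ha3⟩
    refine ⟨R.smul_mem x ha1, fun t ht => ha2 t fun h => ht ?_, fun o ho => ha3 o fun h => ho ?_⟩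
    · rw [Pi.smul_apply, h, smul_zero]
    · rw [Pi.smul_apply, h, smul_zero]

/-- existence of finite spanning families -/
theorem t_fam : S_FAM.{u} := by
  intro k _ T _ e R
  classical
  refine ⟨Σ f : Fin (∑ t, e t + 1), Σ W : Finset (Option T), Fin (Module.finrank k (RW e R f W)),
    inferInstance, fun i => i.1,
    fun i => ((Module.finBasis k (RW e R i.1 i.2.1) i.2.2 : RW e R i.1 i.2.1) : Option T → k), ?_, ?_⟩
  · intro i
    have h := (Module.finBasis k (RW e R i.1 i.2.1) i.2.2 : RW e R i.1 i.2.1).2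
    exact ⟨h.1, h.2.1⟩
  · intro f hf W c hc hl hW
    have hfN : f < ∑ t, e t + 1 := by
      rcases hf with rfl | ⟨t, rfl⟩
      · omega
      · have : e t ≤ ∑ t, e t := single_le_sum (fun _ _ => Nat.zero_le _) (mem_univ t)
        omega
    set W' : Finset (Option T) := univ.filter (· ∈ W) with hW'
    have hcW : c ∈ RW e R f W' := ⟨hc, hl, fun o ho => mem_filter.2 ⟨mem_univ _, hW o ho⟩⟩
    have h1 := (Module.finBasis k (RW e R f W')).sum_repr ⟨c, hcW⟩
    have h2 : c = ∑ i, ((Module.finBasis k (RW e R f W')).repr ⟨c, hcW⟩ i) •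
        ((Module.finBasis k (RW e R f W') i : RW e R f W') : Option T → k) := by
      have h3 := congrArg Subtype.val h1
      rw [Submodule.coe_sum] at h3
      exact h3.symm
    rw [h2]
    refine Submodule.sum_mem _ fun i _ => Submodule.smul_mem _ _ (Submodule.subset_span
      ⟨⟨⟨f, hfN⟩, W', i⟩, rfl, rfl, fun o ho => ?_⟩)
    exact (mem_filter.1 ((Module.finBasis k (RW e R f W') i : RW e R f W').2.2.2 o ho)).2

end Pool.Agent.N40.FL
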