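import Pool.Agent.N102.FL.Stm

/-! Project FL: pivots of a subspace (helper40) -/

set_option autoImplicit false

universe u

namespace Pool.Agent.N40.FL

open Pool.Agent.N102.FL Finset

/-- pivots of a subspace -/
theorem t_piv : S_PIV.{u} := by
  intro k _ ι _ Λ _ key hkey R
  classical
  set P : Finset ι := univ.filter (fun o => ∃ c ∈ R, c o ≠ 0 ∧ ∀ o', key o' < key o → c o' = 0) with hP
  refine ⟨P, ?_, fun o ho => (mem_filter.1 ho).2⟩
  let L : R →ₗ[k] (P → k) := (LinearMap.funLeft k k (Subtype.val : P → ι)).comp R.subtype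
  have hL : Function.Injective L := by
    rw [← LinearMap.ker_eq_bot, LinearMap.ker_eq_bot']
    intro c hc
    by_contra hne
    have h1 : ∃ o, c.1 o ≠ 0 := by
      by_contra! h
      apply hne
      ext o
      exact h o
    obtain ⟨o1, ho1⟩ := h1
    obtain ⟨o, ho, hmin⟩ := Finset.exists_min_image (univ.filter fun o => c.1 o ≠ 0) key
      ⟨o1, mem_filter.2 ⟨mem_univ _, ho1⟩⟩
    have ho' := (mem_filter.1 ho).2
    have hoP : o ∈ P := by
      refine mem_filter.2 ⟨mem_univ _, c.1, c.2, ho', fun o' h' => ?_⟩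
      by_contra h2
      exact absurd (hmin o' (mem_filter.2 ⟨mem_univ _, h2⟩)) (not_le.2 h')
    exact ho' (congrFun hc ⟨o, hoP⟩)
  have h2 := LinearMap.finrank_le_finrank_of_injective hL
  rwa [Module.finrank_fintype_fun_eq_card, Fintype.card_coe] at h2

end Pool.Agent.N40.FL
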